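import Mathlib

set_option autoImplicit false

namespace Pool.Agent.Results.MP_d80673_al.NotVariety

universe u v

/-- relational composition `R;S` -/
def rcomp {X : Type u} (R S : Set (X × X)) : Set (X × X) :=
  {p | ∃ y, (p.1, y) ∈ R ∧ (y, p.2) ∈ S}

/-- the order of a poset as a binary relation -/
def leRel (X : Type u) [PartialOrder X] : Set (X × X) := {p | p.1 ≤ p.2}

/-- weakening relations: `≤;R;≤ ⊆ R` -/
def IsWeak {X : Type u} [PartialOrder X] (R : Set (X × X)) : Prop :=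
  rcomp (rcomp (leRel X) R) (leRel X) ⊆ R

/-- the implication `R → S` of weakening relations -/
def rimp {X : Type u} [PartialOrder X] (R S : Set (X × X)) : Set (X × X) :=
  {p | ∀ x' y', x' ≤ p.1 → p.2 ≤ y' → (x', y') ∈ R → (x', y') ∈ S}

/-- an algebra with two binary operations `→` and `;` -/
structure Alg (S : Type u) where
  imp : S → S → S
  comp : S → S → S

/-- membership in `K`: the algebra embeds into a direct product of algebras of weakening
relations on posets -/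
def InK {S : Type u} (A : Alg S) : Prop :=
  ∃ (ι : Type v) (X : ι → Type v) (_ : ∀ i, PartialOrder (X i))
    (h : S → ∀ i, Set (X i × X i)),
    (∀ s i, IsWeak (h s i)) ∧ Function.Injective h ∧
    (∀ s t i, h (A.imp s t) i = rimp (h s i) (h t i)) ∧
    (∀ s t i, h (A.comp s t) i = rcomp (h s i) (h t i))

/-- homomorphisms -/
def IsHom {S T : Type u} (A : Alg S) (B : Alg T) (f : S → T) : Prop :=
  (∀ s t, f (A.imp s t) = B.imp (f s) (f t)) ∧ (∀ s t, f (A.comp s t) = B.comp (f s) (f t))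

/-! ### a quasi-identity valid in `K` -/

lemma weak_apply {X : Type u} [PartialOrder X] {R : Set (X × X)} (h : IsWeak R) {x y x' y' : X}
    (hx : x' ≤ x) (hy : y ≤ y') (hr : (x, y) ∈ R) : (x', y') ∈ R :=
  h ⟨y, ⟨x, hx, hr⟩, hy⟩

lemma rimp_self {X : Type u} [PartialOrder X] (R : Set (X × X)) : rimp R R = Set.univ := by
  ext p; simp [rimp]

lemma rimp2 {X : Type u} [PartialOrder X] {R S U : Set (X × X)} (hR : IsWeak R) :
    rimp R (rimp S U) = Set.univ ↔ ∀ p, p ∈ R → p ∈ S → p ∈ U := by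
  constructor
  · intro h p h1 h2
    have : p ∈ rimp R (rimp S U) := h ▸ Set.mem_univ _
    exact this p.1 p.2 le_rfl le_rfl h1 p.1 p.2 le_rfl le_rfl h2
  · intro h
    ext p
    simp only [Set.mem_univ, iff_true]
    intro x y _ _ hr x' y' hx hy hs
    exact h _ (weak_apply hR hx hy hr) hs

lemma quasi {S : Type} (A : Alg S) (hA : InK.{0, v} A) (a b r1 r2 u v : S)
    (h1 : A.comp a b = A.imp a a)
    (h2 : A.imp (A.comp r1 a) (A.imp (A.comp r2 a) u) = A.imp a a)
    (h3 : A.imp (A.comp b r1) (A.imp (A.comp b r2) v) = A.imp a a) :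
    A.imp r1 (A.imp r2 (A.comp u v)) = A.imp a a := by
  obtain ⟨ι, X, inst, h, hw, hinj, himp, hcomp⟩ := hA
  apply hinj
  funext i
  have e1 := congrArg (fun s => h s i) h1
  have e2 := congrArg (fun s => h s i) h2
  have e3 := congrArg (fun s => h s i) h3
  simp only [himp, rimp_self] at e1 e2 e3 ⊢
  rw [rimp2 (hw _ _)] at e2 e3 ⊢
  simp only [hcomp] at e1 e2 e3 ⊢
  rintro ⟨x, y⟩ p1 p2
  have : (y, x) ∈ rcomp (h a i) (h b i) := e1 ▸ Set.mem_univ _
  obtain ⟨z, hz1, hz2⟩ := this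
  exact ⟨z, e2 _ ⟨y, p1, hz1⟩ ⟨y, p2, hz1⟩, e3 _ ⟨x, hz2, p1⟩ ⟨x, hz2, p2⟩⟩

/-! ### the example -/

/-- four-element antichain -/
def X4 : Type := Fin 4

instance : PartialOrder X4 where
  le x y := x = y
  le_refl _ := rfl
  le_trans _ _ _ h1 h2 := h1.trans h2
  le_antisymm _ _ h _ := h

abbrev F := Fin 4
abbrev Rl := Set (F × F)

def ofB (m : F → F → Bool) : Rl := {p | m p.1 p.2 = true}

lemma mem_ofB (m : F → F → Bool) (i j : F) : (i, j) ∈ ofB m ↔ m i j = true := Iff.rfl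

def aB : F → F → Bool := ![![true, true, true, false], ![true, true, false, true],
  ![true, true, false, false], ![true, true, true, true]]
def bB : F → F → Bool := ![![false, true, true, false], ![false, true, false, true],
  ![true, true, true, true], ![true, true, true, true]]
def r1B : F → F → Bool := ![![true, false, true, false], ![true, true, false, true],
  ![true, true, true, true], ![true, true, false, true]]
def r2B : F → F → Bool := ![![false, true, true, false], ![true, true, false, true],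
  ![true, true, false, true], ![true, true, true, true]]
def uB : F → F → Bool := ![![true, true, false, false], ![true, true, true, true],
  ![true, true, true, true], ![true, true, true, true]]
def vB : F → F → Bool := ![![true, true, false, true], ![true, true, false, true],
  ![true, true, true, true], ![true, true, true, true]]

def Two (P : F → Prop) : Prop := ∃ i j, i ≠ j ∧ P i ∧ P j
def Big (P : F → Prop) : Prop := ∃ k, ∀ i, i ≠ k → P i

lemma Two.mono {P Q : F → Prop} (h : Two P) (hh : ∀ i, P i → Q i) : Two Q := by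
  obtain ⟨i, j, h1, h2, h3⟩ := h
  exact ⟨i, j, h1, hh _ h2, hh _ h3⟩

lemma Big.mono {P Q : F → Prop} (h : Big P) (hh : ∀ i, P i → Q i) : Big Q := by
  obtain ⟨k, h⟩ := h
  exact ⟨k, fun i hi => hh _ (h i hi)⟩

lemma Big.two {P : F → Prop} (h : Big P) : Two P := by
  obtain ⟨k, h⟩ := h
  have : ∀ k : F, ∃ i j, i ≠ j ∧ i ≠ k ∧ j ≠ k := by decide
  obtain ⟨i, j, h1, h2, h3⟩ := this k
  exact ⟨i, j, h1, h i h2, h j h3⟩

lemma Big.meet {P Q : F → Prop} (h : Big P) (h' : Two Q) : ∃ i, P i ∧ Q i := by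
  obtain ⟨k, h⟩ := h
  obtain ⟨i, j, h1, h2, h3⟩ := h'
  by_cases hi : i = k
  · exact ⟨j, h j (fun hj => h1 (hi.trans hj.symm)), h3⟩
  · exact ⟨i, h i hi, h2⟩

structure InA (c : Rl) : Prop where
  r1 : ∀ i, Two fun j => (i, j) ∈ c
  c1 : ∀ j, Two fun i => (i, j) ∈ c
  r2 : ∀ i i', i ≠ i' → Big fun j => (i, j) ∈ c ∨ (i', j) ∈ c
  c2 : ∀ j j', j ≠ j' → Big fun i => (i, j) ∈ c ∨ (i, j') ∈ c
  r3 : (Big fun j => ((2 : F), j) ∈ c) ∨ ofB aB ⊆ c
  c3 : (Big fun i => (i, (0 : F)) ∈ c) ∨ ofB bB ⊆ c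
  t : ((2 : F), (0 : F)) ∈ c ∨ ∀ p, p ≠ ((2 : F), (0 : F)) → p ∈ c

lemma InA.mono {c d : Rl} (h : InA c) (hcd : c ⊆ d) : InA d where
  r1 i := (h.r1 i).mono fun _ hh => hcd hh
  c1 j := (h.c1 j).mono fun _ hh => hcd hh
  r2 i i' hi := (h.r2 i i' hi).mono fun _ hh => hh.imp (fun x => hcd x) (fun x => hcd x)
  c2 i i' hi := (h.c2 i i' hi).mono fun _ hh => hh.imp (fun x => hcd x) (fun x => hcd x)
  r3 := h.r3.imp (fun hh => hh.mono fun _ x => hcd x) (fun hh => hh.trans hcd)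
  c3 := h.c3.imp (fun hh => hh.mono fun _ x => hcd x) (fun hh => hh.trans hcd)
  t := h.t.imp (fun hh => hcd hh) (fun hh p hp => hcd (hh p hp))

lemma ab_full : ∀ i j : F, (i, j) ≠ ((2 : F), (0 : F)) → ∃ y, aB i y = true ∧ bB y j = true := by
  decide

lemma InA.comp {c d : Rl} (hc : InA c) (hd : InA d) : InA (rcomp c d) := by
  have hr : ∀ i, Big fun j => (i, j) ∈ rcomp c d := by
    intro i
    obtain ⟨k, l, hkl, h1, h2⟩ := hc.r1 i
    exact (hd.r2 k l hkl).mono fun j hj => hj.elim (fun x => ⟨k, h1, x⟩) (fun x => ⟨l, h2, x⟩)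
  have hcol : ∀ j, Big fun i => (i, j) ∈ rcomp c d := by
    intro j
    obtain ⟨k, l, hkl, h1, h2⟩ := hd.c1 j
    exact (hc.c2 k l hkl).mono fun i hi => hi.elim (fun x => ⟨k, x, h1⟩) (fun x => ⟨l, x, h2⟩)
  refine ⟨fun i => (hr i).two, fun j => (hcol j).two,
    fun i _ _ => (hr i).mono fun _ => Or.inl, fun j _ _ => (hcol j).mono fun _ => Or.inl,
    Or.inl (hr _), Or.inl (hcol _), ?_⟩
  rcases hc.r3 with h1 | h1
  · obtain ⟨y, h2, h3⟩ := h1.meet (hd.c1 0)
    exact Or.inl ⟨y, h2, h3⟩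
  · rcases hd.c3 with h2 | h2
    · obtain ⟨y, h3, h4⟩ := h2.meet (hc.r1 2)
      exact Or.inl ⟨y, h4, h3⟩
    · right
      rintro ⟨i, j⟩ hp
      obtain ⟨y, h3, h4⟩ := ab_full i j hp
      exact ⟨y, h1 h3, h2 h4⟩

def SA : Type := {c : Rl // InA c}
def SB : Type := {c : Rl // InA c ∧ ((2 : F), (0 : F)) ∈ c}

def algA : Alg SA where
  imp c d := ⟨c.1ᶜ ∪ d.1, d.2.mono Set.subset_union_right⟩
  comp c d := ⟨rcomp c.1 d.1, c.2.comp d.2⟩

def fAB (c : SA) : SB := ⟨insert (2, 0) c.1, c.2.mono (Set.subset_insert _ _), Set.mem_insert _ _⟩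

def algB : Alg SB where
  imp c d := ⟨c.1ᶜ ∪ d.1, d.2.1.mono Set.subset_union_right, Or.inr d.2.2⟩
  comp c d := ⟨insert (2, 0) (rcomp c.1 d.1), (c.2.1.comp d.2.1).mono (Set.subset_insert _ _),
    Set.mem_insert _ _⟩

lemma inK_A : InK.{0, 0} algA := by
  refine ⟨Unit, fun _ => X4, fun _ => inferInstance, fun s _ => s.1, ?_, ?_, ?_, ?_⟩
  · rintro s i ⟨x, y⟩ ⟨z, ⟨w, h1, h2⟩, h3⟩
    have e1 : x = w := h1
    have e2 : z = y := h3
    subst e1 e2
    exact h2
  · intro s t h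
    exact Subtype.ext (congrFun h ())
  · intro s t i
    ext ⟨x, y⟩
    constructor
    · intro h x' y' h1 h2 h3
      have e1 : x' = x := h1
      have e2 : y = y' := h2
      subst e1 e2
      exact h.resolve_left (fun hh => hh h3)
    · intro h
      by_cases hs : (x, y) ∈ s.1
      · exact Or.inr (h x y rfl rfl hs)
      · exact Or.inl hs
  · intro s t i; rfl

lemma T_big {c : Rl} (h : ∀ p, p ≠ ((2 : F), (0 : F)) → p ∈ c) :
    (∀ i, Big fun j => (i, j) ∈ c) ∧ (∀ j, Big fun i => (i, j) ∈ c) :=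
  ⟨fun _ => ⟨0, fun _ hj => h _ fun e => hj (congrArg Prod.snd e)⟩,
   fun _ => ⟨2, fun _ hj => h _ fun e => hj (congrArg Prod.fst e)⟩⟩

lemma rcomp_mono {c c' d d' : Rl} (h : c ⊆ c') (h' : d ⊆ d') : rcomp c d ⊆ rcomp c' d' :=
  fun _ ⟨y, h1, h2⟩ => ⟨y, h h1, h' h2⟩

lemma hom_f : IsHom algA algB fAB := by
  constructor
  · intro s t
    apply Subtype.ext
    ext p
    simp only [fAB, algA, algB, Set.mem_insert_iff, Set.mem_union, Set.mem_compl_iff]
    tauto
  · intro s t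
    apply Subtype.ext
    show insert _ (rcomp s.1 t.1) = insert _ (rcomp (insert _ s.1) (insert _ t.1))
    congr 1
    apply Set.Subset.antisymm (rcomp_mono (Set.subset_insert _ _) (Set.subset_insert _ _))
    rcases s.2.t with h1 | h1
    · rcases t.2.t with h2 | h2
      · rw [Set.insert_eq_of_mem h1, Set.insert_eq_of_mem h2]
      · rintro ⟨i, j⟩ -
        obtain ⟨y, h3, h4⟩ := ((T_big h2).2 j).meet (s.2.r1 i)
        exact ⟨y, h4, h3⟩
    · rintro ⟨i, j⟩ -
      obtain ⟨y, h3, h4⟩ := ((T_big h1).1 i).meet (t.2.c1 j)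
      exact ⟨y, h3, h4⟩

lemma surj_f : Function.Surjective fAB := by
  intro c
  exact ⟨⟨c.1, c.2.1⟩, Subtype.ext (Set.insert_eq_of_mem c.2.2)⟩

def chk (m : F → F → Bool) : Prop :=
  (∀ i, ∃ j j', j ≠ j' ∧ m i j = true ∧ m i j' = true) ∧
  (∀ j, ∃ i i', i ≠ i' ∧ m i j = true ∧ m i' j = true) ∧
  (∀ i i', i ≠ i' → ∃ k, ∀ j, j ≠ k → m i j = true ∨ m i' j = true) ∧
  (∀ j j', j ≠ j' → ∃ k, ∀ i, i ≠ k → m i j = true ∨ m i j' = true) ∧
  ((∃ k, ∀ j, j ≠ k → m 2 j = true) ∨ ∀ i j, aB i j = true → m i j = true) ∧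
  ((∃ k, ∀ i, i ≠ k → m i 0 = true) ∨ ∀ i j, bB i j = true → m i j = true) ∧ m 2 0 = true

instance (m : F → F → Bool) : Decidable (chk m) := by unfold chk; infer_instance

def mkB (m : F → F → Bool) (h : chk m) : SB :=
  ⟨ofB m, ⟨h.1, h.2.1, h.2.2.1, h.2.2.2.1,
    h.2.2.2.2.1.imp id (fun hh p hp => hh p.1 p.2 hp),
    h.2.2.2.2.2.1.imp id (fun hh p hp => hh p.1 p.2 hp), Or.inl h.2.2.2.2.2.2⟩, h.2.2.2.2.2.2⟩

lemma ca : chk aB := by decide
lemma cb : chk bB := by decide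
lemma cr1 : chk r1B := by decide
lemma cr2 : chk r2B := by decide
lemma cu : chk uB := by decide
lemma cv : chk vB := by decide

lemma not_inK_B : ¬ InK.{0, v} algB := by
  intro h
  have key := quasi algB h (mkB aB ca) (mkB bB cb) (mkB r1B cr1) (mkB r2B cr2) (mkB uB cu)
    (mkB vB cv) ?_ ?_ ?_
  · have e := congrArg (fun s : SB => ((0 : F), (2 : F)) ∈ s.1) key
    simp only [algB, mkB, Set.mem_union, Set.mem_compl_iff, Set.mem_insert_iff, rcomp,
      Set.mem_setOf_eq, mem_ofB, eq_iff_iff] at e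
    revert e
    decide
  all_goals
    apply Subtype.ext
    ext ⟨i, j⟩
    simp only [algB, mkB, Set.mem_union, Set.mem_compl_iff, Set.mem_insert_iff, rcomp,
      Set.mem_setOf_eq, mem_ofB]
    revert i j
    decide

/-- The class `K` is not closed under homomorphic images, hence is not a variety. -/
theorem result : ∃ (S T : Type) (A : Alg S) (B : Alg T) (f : S → T),
    InK.{0, 0} A ∧ IsHom A B f ∧ Function.Surjective f ∧ ¬ InK.{0, v} B :=
  ⟨SA, SB, algA, algB, fAB, inK_A, hom_f, surj_f, not_inK_B⟩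

end Pool.Agent.Results.MP_d80673_al.NotVariety
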